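import Pool.Agent.Helper43.BraidE

namespace Pool.Agent.Results.MP_260d59_co.DimEqualsDiameter

open Pool.Helper43.Braid

/-- For every Coxeter system of type Lambda and every reduced expression `α`, the braid graph of
`α` is finite, connected, a partial cube, and its isometric dimension equals its diameter. -/
theorem result {B W : Type*} [Group W] (M : CoxeterMatrix B) (cs : CoxeterSystem M W)
    (hM : IsTypeLambda M) (α : List B) (hα : cs.IsReduced α) :
    Finite {w : List B // Relation.ReflTransGen (BraidMove M) α w} ∧
    (braidGraph M α).Connected ∧
    (∃ n, EmbedsInCube (braidGraph M α) n) ∧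
    isometricDim (braidGraph M α) = (braidGraph M α).diam :=
  main M cs (fun s t u h1 h2 h3 => hM.2 s t u ⟨h1, h2, h3⟩) α hα

end Pool.Agent.Results.MP_260d59_co.DimEqualsDiameter
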